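import Pool.Agent.Run7.h94.Tor6
import Pool.Agent.Helper716_Lang.Core

/-!
# Complete intersections of ample divisors in toric varieties over pointless real curves

Let `K` be a field of transcendence degree one over the real numbers in which `-1` is a sum of
squares, for example the function field of a real curve without real points, and let `T` be a `ℚ`-factorial split projective toric variety over `K` with
homogeneous coordinate ring `K[x_1, …, x_N]`, graded by the divisor class group modulo torsion
`ℤ ^ ρ`; the variable `x_i` has degree `w_i` and `T` consists of the points `x` for which an ample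
class `H` lies in the cone of the `w_i` with `x_i ≠ 0`.  Let `D_1, …, D_r` be arbitrary ample
classes.  If `K_T + Δ + ∑ D_j` is not nef for some torus-invariant boundary `Δ` with coefficients in
`[0, 1]`, then hypersurfaces of classes `D_1, …, D_r` in `T` have a common `K`-point.

In particular, every smooth complete intersection `X` of ample divisors in a smooth split
projective toric variety over `K`, such that `K_X` is not nef, has a rational point; so every
rationally connected one has a rational point.
-/

set_option autoImplicit false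

namespace Pool.Agent.Results.MP_638b00_ag.ToricAmple

/-- Some positive integral multiple of `E` is a combination with nonnegative integral coefficients
of the vectors `w_i`, `i ∈ S`: the class `E` lies in the cone spanned by the `w_i`, `i ∈ S`. -/
def InCone {N ρ : ℕ} (w : Fin N → Fin ρ → ℤ) (S : Set (Fin N)) (E : Fin ρ → ℤ) : Prop :=
  ∃ m : ℕ, 0 < m ∧ ∃ a : Fin N → ℕ, (∀ i, i ∉ S → a i = 0) ∧ ∑ i, a i • w i = m • E

/-- `D` is nef on the toric variety given by `H`: every cone spanned by some of the `w_i` which
contains `H` contains `D`. -/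
def Nef {N ρ : ℕ} (w : Fin N → Fin ρ → ℤ) (H D : Fin ρ → ℤ) : Prop :=
  ∀ S : Set (Fin N), InCone w S H → InCone w S D

/-- `D` is ample on the toric variety given by `H`: the cones spanned by some of the `w_i` which
contain `H` are the same as those which contain `D`. -/
def Ample {N ρ : ℕ} (w : Fin N → Fin ρ → ℤ) (H D : Fin ρ → ℤ) : Prop :=
  ∀ S : Set (Fin N), InCone w S H ↔ InCone w S D

/-- The toric variety given by `H` is `ℚ`-factorial: if the cone spanned by the `w_i`, `i ∈ S`,
contains `H`, then these `w_i` span the space, i.e. a positive multiple of each `w_k` is a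
combination with integral coefficients of the `w_i`, `i ∈ S`. -/
def QFactorial {N ρ : ℕ} (w : Fin N → Fin ρ → ℤ) (H : Fin ρ → ℤ) : Prop :=
  ∀ S : Set (Fin N), InCone w S H → ∀ k, ∃ m : ℕ, 0 < m ∧ ∃ a : Fin N → ℤ,
    (∀ i, i ∉ S → a i = 0) ∧ ∑ i, a i • w i = m • w k

/-- Let `K` be a field of transcendence degree one over `ℝ` in which `-1` is a sum of squares,
`w_1, …, w_N`, `H` vectors in `ℤ ^ ρ` such that `QFactorial w H`, and
let `D_1, …, D_r` be ample.  Let `c_i ≤ M` be natural numbers such that the class
`M ∑ D_j - ∑ c_i w_i` is not nef.  Then polynomials `F_1, …, F_r` over `K`, `F_j` being homogeneous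
of degree `D_j` for the grading with `deg x_i = w_i`, have a common zero `x ∈ K ^ N` such that `H`
lies in the cone spanned by the `w_i` with `x_i ≠ 0`. -/
theorem result (K : Type) [Field K] [Algebra ℝ K]
    (htr : ∃ x : Fin 1 → K, IsTranscendenceBasis ℝ x)
    (hnonreal : ∃ (q : ℕ) (g : Fin q → K), ∑ l, g l ^ 2 = -1)
    (N ρ r : ℕ) (w : Fin N → Fin ρ → ℤ) (H : Fin ρ → ℤ) (hH : QFactorial w H)
    (D : Fin r → Fin ρ → ℤ) (hD : ∀ j, Ample w H (D j))
    (F : Fin r → MvPolynomial (Fin N) K)
    (hF : ∀ j, ∀ a ∈ (F j).support, ∑ i, a i • w i = D j)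
    (M : ℕ) (c : Fin N → ℕ) (hc : ∀ i, c i ≤ M)
    (hnef : ¬ Nef w H (M • ∑ j, D j - ∑ i, c i • w i)) :
    ∃ x : Fin N → K, (∀ j, MvPolynomial.eval x (F j) = 0) ∧ InCone w {i | x i ≠ 0} H := by
  obtain ⟨y, hy⟩ := htr
  obtain ⟨q, g, hg⟩ := hnonreal
  have : IsRealClosed ℝ := Pool.Agent.Helper716_Lang.RC.isRealClosed_real
  refine Run7.h94.Tor.toric3 (fun n d f hd hf hn => ?_) w D H _ M c hc rfl F hF hD hH ?_
  · rw [pow_one] at hn
    obtain ⟨a, ha, h⟩ := Pool.Agent.Helper716_Lang.lang_weighted hy g hg (fun _ : Fin n => 1)
      (fun _ => le_refl 1) (fun _ : Fin 1 => d) (fun _ => hd) (by simpa using hn) (fun _ => f)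
      (fun _ => hf)
    exact ⟨a, ha, h 0⟩
  rw [neg_sub]
  by_contra h
  apply hnef
  intro S hS
  by_contra hS'
  exact h ⟨S, hS, hS'⟩

end Pool.Agent.Results.MP_638b00_ag.ToricAmple
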