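import Pool.Agent.Run7.h94.Tor4
import Pool.Agent.Helper716_Lang.Core

/-!
# Hypersurfaces in toric varieties over function fields of real curves without real points

`K` is a field of transcendence degree one over the real numbers in which `-1` is a sum of squares,
for example the function field of a real curve without real points.  Let `T` be a split projective
toric variety over `K` with homogeneous coordinate ring `K[x_1, …, x_N]`, graded by the divisor
class group modulo torsion `ℤ ^ ρ`; the variable `x_i` has degree `w_i`, the anticanonical class is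
`∑ w_i`, and `T` consists of the points `x` for which an ample class `H` lies in the cone of the
`w_i` with `x_i ≠ 0`.  If `D ≠ 0` is a class and `m_1, …, m_r` are positive integers such that
`-(K_T + Δ) - (∑ m_j) D` is nef and big for some torus-invariant boundary `Δ` with coefficients in
`[0, 1)`, then hypersurfaces of classes `m_1 D, …, m_r D` in `T` have a common `K`-point.
-/

set_option autoImplicit false

namespace Pool.Agent.Results.MP_638b00_ag.ToricFano

/-- Some positive integral multiple of `E` is a combination with nonnegative integral coefficients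
of the vectors `w_i`, `i ∈ S`: the class `E` lies in the cone spanned by the `w_i`, `i ∈ S`. -/
def InCone {N ρ : ℕ} (w : Fin N → Fin ρ → ℤ) (S : Set (Fin N)) (E : Fin ρ → ℤ) : Prop :=
  ∃ m : ℕ, 0 < m ∧ ∃ a : Fin N → ℕ, (∀ i, i ∉ S → a i = 0) ∧ ∑ i, a i • w i = m • E

/-- Some positive integral multiple of `E` is a combination with positive integral coefficients of
all the vectors `w_i`: the class `E` lies in the relative interior of the cone of all `w_i`. -/
def Big {N ρ : ℕ} (w : Fin N → Fin ρ → ℤ) (E : Fin ρ → ℤ) : Prop :=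
  ∃ m : ℕ, 0 < m ∧ ∃ a : Fin N → ℕ, (∀ i, 0 < a i) ∧ ∑ i, a i • w i = m • E

/-- Let `K` be a field of transcendence degree one over `ℝ` in which `-1` is a sum of squares,
`w_1, …, w_N`, `D ≠ 0` and `H` vectors in `ℤ ^ ρ`, `m_1, …, m_r` positive integers, and
`F_1, …, F_r` polynomials in `N` variables over `K`, `F_j` being homogeneous of degree `m_j D` for
the grading with `deg x_i = w_i`.  Let `0 < c_i ≤ M` be integers and
`C = ∑ c_i w_i - M (∑ m_j) D`.  Suppose that `C` and `H` lie in the interior of the cone of the
`w_i`, and that each cone spanned by some of the `w_i` which contains `H` also contains `C`.  Then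
`F_1, …, F_r` have a common zero `x ∈ K ^ N` such that `H` lies in the cone spanned by the `w_i`
with `x_i ≠ 0`. -/
theorem result (K : Type) [Field K] [Algebra ℝ K]
    (htr : ∃ x : Fin 1 → K, IsTranscendenceBasis ℝ x)
    (hnonreal : ∃ (q : ℕ) (g : Fin q → K), ∑ l, g l ^ 2 = -1)
    (N ρ r : ℕ) (w : Fin N → Fin ρ → ℤ) (D H C : Fin ρ → ℤ) (hD : D ≠ 0)
    (m : Fin r → ℕ) (hm : ∀ j, 0 < m j)
    (F : Fin r → MvPolynomial (Fin N) K)
    (hF : ∀ j, ∀ a ∈ (F j).support, ∑ i, a i • w i = m j • D)
    (M : ℕ) (c : Fin N → ℕ) (hc : ∀ i, 0 < c i ∧ c i ≤ M)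
    (hC : C = ∑ i, c i • w i - (M * ∑ j, m j) • D)
    (hCbig : Big w C) (hHbig : Big w H)
    (hnef : ∀ S : Set (Fin N), InCone w S H → InCone w S C) :
    ∃ x : Fin N → K, (∀ j, MvPolynomial.eval x (F j) = 0) ∧ InCone w {i | x i ≠ 0} H := by
  obtain ⟨y, hy⟩ := htr
  obtain ⟨q, g, hg⟩ := hnonreal
  have : IsRealClosed ℝ := Pool.Agent.Helper716_Lang.RC.isRealClosed_real
  refine Run7.h94.Tor.toric2 (fun n d f hd hf hn => ?_)
    w D H C hD m hm M c hc hC F hF hCbig hHbig hnef
  rw [pow_one] at hn
  obtain ⟨a, ha, h⟩ := Pool.Agent.Helper716_Lang.lang_weighted hy g hg (fun _ : Fin n => 1)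
    (fun _ => le_refl 1) (fun _ : Fin 1 => d) (fun _ => hd) (by simpa using hn) (fun _ => f)
    (fun _ => hf)
  exact ⟨a, ha, h 0⟩

end Pool.Agent.Results.MP_638b00_ag.ToricFano
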